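import Pool.Agent.TH561.AD.Rig

/-!
# Pairs of families of freely periodic knots with the same numbers of full twists
-/

set_option autoImplicit false

namespace Pool.Agent.L5helper92.PR

open Pool.Agent.H891R2.Jones Pool.Agent.TH561 Pool.Agent.TH561.PK Pool.Agent.TH561.FP
  Pool.Agent.TH561.AD Finset LaurentPolynomial

section coef

variable (p : ℕ) [hp : Fact p.Prime] {M l M' l' : ℕ}

/-- the coefficients of the quotients of a pair of knots which is not separated -/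
theorem pair_coef (k : ℕ) (hp5 : 5 ≤ p) (hk : 1 ≤ k) (hl : 0 < l) (hM : 0 < M) (v : Fin l → Elem M)
    (hl' : 0 < l') (hM' : 0 < M') (v' : Fin l' → Elem M') (a : ℤ)
    (dir : Fin (p ^ k * l + a.natAbs * (M * (M - 1))) × Fin M → Bool)
    (ho : Oriented (freeWord (p ^ k) v a) dir) (hK : IsKnot (PK.annular (freeWord (p ^ k) v a) dir))
    (dir' : Fin (p ^ k * l' + a.natAbs * (M' * (M' - 1))) × Fin M' → Bool)
    (ho' : Oriented (freeWord (p ^ k) v' a) dir')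
    (hK' : IsKnot (PK.annular (freeWord (p ^ k) v' a) dir')) (hpos : 0 < p ^ k)
    (N : ℕ) (hN : N = max M M') (hq : 2 * N * (a.natAbs * N + 1) < p ^ k) (hq' : wid a N < p ^ k)
    (r d : ℕ) (hd1 : p ^ k - 1 ≤ d) (hd2 : p ^ k * r + wid a N + 1 ≤ d)
    (hS : (T 1 - 1 : (ZMod p)[T;T⁻¹]) ^ d ∣
      red p (PK.annular (freeWord (p ^ k) v a) dir).fPoly -
        red p (PK.annular (freeWord (p ^ k) v' a) dir').fPoly) :
    (PK.linking (fst hl hpos dir) ⟨0, hl⟩) ^ 2 = (PK.linking (fst hl' hpos dir') ⟨0, hl'⟩) ^ 2 ∧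
    ∀ n ∈ range (N + 1), (T 1 - 1 : (ZMod p)[T;T⁻¹]) ^ (r + 1) ∣
      RR p M (toW v) (PK.annular v (fst hl hpos dir)).writhe n -
        RR p M' (toW v') (PK.annular v' (fst hl' hpos dir')).writhe n := by
  have hp2 : p ≠ 2 := by omega
  have hs := pair_sq p k hp5 hk hl hM v hl' hM' v' a dir ho hK dir' ho' hK' hpos N hN hq
    ((pow_dvd_pow _ hd1).trans hS)
  have hS := (pow_dvd_pow (T 1 - 1 : (ZMod p)[T;T⁻¹]) hd2).trans hS
  obtain ⟨hpar, h1, h2⟩ := pair_setup p k hp2 hl hM v hl' hM' v' a dir ho hK dir' ho' hK' hpos N hN hs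
  have h3 := (hS.mul_left (dF (ZMod p)))
  rw [h1] at h3
  have hu : ∀ x : ℤ, IsUnit (T x : (ZMod p)[T;T⁻¹]) := fun x => isUnit_T x
  rw [(hu _).dvd_mul_left] at h3
  exact ⟨hs, alg_ord p k a _ hq hq' (fun n hn' => diff_par p v v' _ _ N hN hpar n hn') r h3⟩

/-- from the coefficients back to the knots -/
theorem pair_back (k : ℕ) (hp2 : p ≠ 2) (hl : 0 < l) (hM : 0 < M) (v : Fin l → Elem M)
    (hl' : 0 < l') (hM' : 0 < M') (v' : Fin l' → Elem M') (a : ℤ)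
    (dir : Fin (p ^ k * l + a.natAbs * (M * (M - 1))) × Fin M → Bool)
    (ho : Oriented (freeWord (p ^ k) v a) dir) (hK : IsKnot (PK.annular (freeWord (p ^ k) v a) dir))
    (dir' : Fin (p ^ k * l' + a.natAbs * (M' * (M' - 1))) × Fin M' → Bool)
    (ho' : Oriented (freeWord (p ^ k) v' a) dir')
    (hK' : IsKnot (PK.annular (freeWord (p ^ k) v' a) dir')) (hpos : 0 < p ^ k)
    (N : ℕ) (hN : N = max M M')
    (hs : (PK.linking (fst hl hpos dir) ⟨0, hl⟩) ^ 2 = (PK.linking (fst hl' hpos dir') ⟨0, hl'⟩) ^ 2)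
    (m : ℕ) (h : ∀ n ∈ range (N + 1), (T 1 - 1 : (ZMod p)[T;T⁻¹]) ^ m ∣
      RR p M (toW v) (PK.annular v (fst hl hpos dir)).writhe n -
        RR p M' (toW v') (PK.annular v' (fst hl' hpos dir')).writhe n) :
    (T 1 - 1 : (ZMod p)[T;T⁻¹]) ^ (p ^ k * m) ∣
      red p (PK.annular (freeWord (p ^ k) v a) dir).fPoly -
        red p (PK.annular (freeWord (p ^ k) v' a) dir').fPoly := by
  obtain ⟨-, h1, -⟩ := pair_setup p k hp2 hl hM v hl' hM' v' a dir ho hK dir' ho' hK' hpos N hN hs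
  apply dvd_of_dF p hp2
  rw [h1]
  refine Dvd.dvd.mul_left (Finset.dvd_sum fun n hn' => ?_) _
  have h2 := pow_dvd_pow_of_dvd (h n hn') (p ^ k)
  rw [← pow_mul, mul_comm m] at h2
  exact h2.mul_right _

/-- the data of two pairs of the same two families agree -/
theorem lift_order (hp2 : p ≠ 2) (k : ℕ) (hl : 0 < l) (hM : 0 < M) (v : Fin l → Elem M)
    (hl' : 0 < l') (hM' : 0 < M') (v' : Fin l' → Elem M') (a : ℤ)
    (dir : Fin (p ^ k * l + a.natAbs * (M * (M - 1))) × Fin M → Bool)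
    (ho : Oriented (freeWord (p ^ k) v a) dir) (hK : IsKnot (PK.annular (freeWord (p ^ k) v a) dir))
    (dir' : Fin (p ^ k * l' + a.natAbs * (M' * (M' - 1))) × Fin M' → Bool)
    (ho' : Oriented (freeWord (p ^ k) v' a) dir')
    (hK' : IsKnot (PK.annular (freeWord (p ^ k) v' a) dir')) (hpos : 0 < p ^ k)
    (N : ℕ) (hN : N = max M M')
    (hs : (PK.linking (fst hl hpos dir) ⟨0, hl⟩) ^ 2 = (PK.linking (fst hl' hpos dir') ⟨0, hl'⟩) ^ 2)
    (m : ℕ) (h : ∀ n ∈ range (N + 1), (T 1 - 1 : (ZMod p)[T;T⁻¹]) ^ m ∣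
      RR p M (toW v) (PK.annular v (fst hl hpos dir)).writhe n -
        RR p M' (toW v') (PK.annular v' (fst hl' hpos dir')).writhe n)
    (k₁ : ℕ) (a₁ : ℤ)
    (d₁ : Fin (p ^ k₁ * l + a₁.natAbs * (M * (M - 1))) × Fin M → Bool)
    (ho₁ : Oriented (freeWord (p ^ k₁) v a₁) d₁)
    (hK₁ : IsKnot (PK.annular (freeWord (p ^ k₁) v a₁) d₁))
    (d₁' : Fin (p ^ k₁ * l' + a₁.natAbs * (M' * (M' - 1))) × Fin M' → Bool)
    (ho₁' : Oriented (freeWord (p ^ k₁) v' a₁) d₁')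
    (hK₁' : IsKnot (PK.annular (freeWord (p ^ k₁) v' a₁) d₁')) :
    (T 1 - 1 : (ZMod p)[T;T⁻¹]) ^ (p ^ k₁ * m) ∣
      red p (PK.annular (freeWord (p ^ k₁) v a₁) d₁).fPoly -
        red p (PK.annular (freeWord (p ^ k₁) v' a₁) d₁').fPoly := by
  have hodd : Odd (p ^ k) := (hp.out.odd_of_ne_two hp2).pow
  have hodd₁ : Odd (p ^ k₁) := (hp.out.odd_of_ne_two hp2).pow
  have hpos₁ : 0 < p ^ k₁ := Nat.pow_pos hp.out.pos
  obtain ⟨e1, e2⟩ := same_ws hl hM v (p ^ k) hodd a dir ho hK (p ^ k₁) hodd₁ a₁ d₁ ho₁ hK₁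
  obtain ⟨e1', e2'⟩ := same_ws hl' hM' v' (p ^ k) hodd a dir' ho' hK' (p ^ k₁) hodd₁ a₁ d₁' ho₁' hK₁'
  refine pair_back p k₁ hp2 hl hM v hl' hM' v' a₁ d₁ ho₁ hK₁ d₁' ho₁' hK₁' hpos₁ N hN
    (by rw [← e2, ← e2']; exact hs) m ?_
  rw [← e1, ← e1']
  exact h

end coef

variable {M l M' l' : ℕ}

/-- equality for another prime -/
theorem lift_prime (p : ℕ) [hp : Fact p.Prime] (hp2 : p ≠ 2) (k : ℕ) (hl : 0 < l) (hM : 0 < M)
    (v : Fin l → Elem M)
    (hl' : 0 < l') (hM' : 0 < M') (v' : Fin l' → Elem M') (a : ℤ)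
    (dir : Fin (p ^ k * l + a.natAbs * (M * (M - 1))) × Fin M → Bool)
    (ho : Oriented (freeWord (p ^ k) v a) dir) (hK : IsKnot (PK.annular (freeWord (p ^ k) v a) dir))
    (dir' : Fin (p ^ k * l' + a.natAbs * (M' * (M' - 1))) × Fin M' → Bool)
    (ho' : Oriented (freeWord (p ^ k) v' a) dir')
    (hK' : IsKnot (PK.annular (freeWord (p ^ k) v' a) dir')) (hpos : 0 < p ^ k)
    (hs : (PK.linking (fst hl hpos dir) ⟨0, hl⟩) ^ 2 = (PK.linking (fst hl' hpos dir') ⟨0, hl'⟩) ^ 2)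
    (hZ : ∀ n, RZ M (toW v) (PK.annular v (fst hl hpos dir)).writhe n =
      RZ M' (toW v') (PK.annular v' (fst hl' hpos dir')).writhe n)
    (p₁ : ℕ) [hp₁ : Fact p₁.Prime] (hp₁2 : p₁ ≠ 2) (k₁ : ℕ) (a₁ : ℤ)
    (d₁ : Fin (p₁ ^ k₁ * l + a₁.natAbs * (M * (M - 1))) × Fin M → Bool)
    (ho₁ : Oriented (freeWord (p₁ ^ k₁) v a₁) d₁)
    (hK₁ : IsKnot (PK.annular (freeWord (p₁ ^ k₁) v a₁) d₁))
    (d₁' : Fin (p₁ ^ k₁ * l' + a₁.natAbs * (M' * (M' - 1))) × Fin M' → Bool)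
    (ho₁' : Oriented (freeWord (p₁ ^ k₁) v' a₁) d₁')
    (hK₁' : IsKnot (PK.annular (freeWord (p₁ ^ k₁) v' a₁) d₁')) :
    red p₁ (PK.annular (freeWord (p₁ ^ k₁) v a₁) d₁).fPoly =
        red p₁ (PK.annular (freeWord (p₁ ^ k₁) v' a₁) d₁').fPoly := by
  have hodd : Odd (p ^ k) := (hp.out.odd_of_ne_two hp2).pow
  have hodd₁ : Odd (p₁ ^ k₁) := (hp₁.out.odd_of_ne_two hp₁2).pow
  have hpos₁ : 0 < p₁ ^ k₁ := Nat.pow_pos hp₁.out.pos
  obtain ⟨e1, e2⟩ := same_ws hl hM v (p ^ k) hodd a dir ho hK (p₁ ^ k₁) hodd₁ a₁ d₁ ho₁ hK₁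
  obtain ⟨e1', e2'⟩ := same_ws hl' hM' v' (p ^ k) hodd a dir' ho' hK' (p₁ ^ k₁) hodd₁ a₁ d₁' ho₁' hK₁'
  rw [← sub_eq_zero]
  apply zero_of_pow p₁
  intro m
  have h := pair_back p₁ k₁ hp₁2 hl hM v hl' hM' v' a₁ d₁ ho₁ hK₁ d₁' ho₁' hK₁' hpos₁ (max M M') rfl
    (by rw [← e2, ← e2']; exact hs) m (by
      intro n _
      rw [← e1, ← e1', ← red_RZ, ← red_RZ, hZ n, sub_self]
      exact dvd_zero _)
  exact (pow_dvd_pow _ (Nat.le_mul_of_pos_left m hpos₁)).trans h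

/-- the integral coefficients of the quotients -/
theorem pair_RZ (p : ℕ) [hp : Fact p.Prime] (k : ℕ) (hp5 : 5 ≤ p) (hk : 1 ≤ k) (hl : 0 < l)
    (hM : 0 < M) (v : Fin l → Elem M)
    (hl' : 0 < l') (hM' : 0 < M') (v' : Fin l' → Elem M') (a : ℤ)
    (dir : Fin (p ^ k * l + a.natAbs * (M * (M - 1))) × Fin M → Bool)
    (ho : Oriented (freeWord (p ^ k) v a) dir) (hK : IsKnot (PK.annular (freeWord (p ^ k) v a) dir))
    (dir' : Fin (p ^ k * l' + a.natAbs * (M' * (M' - 1))) × Fin M' → Bool)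
    (ho' : Oriented (freeWord (p ^ k) v' a) dir')
    (hK' : IsKnot (PK.annular (freeWord (p ^ k) v' a) dir')) (hpos : 0 < p ^ k)
    (N : ℕ) (hN : N = max M M') (hq : 2 * N * (a.natAbs * N + 1) < p ^ k)
    (hbig : 2 ^ (M + 2 * l) + 2 ^ (M' + 2 * l') < p)
    (hf : red p (PK.annular (freeWord (p ^ k) v a) dir).fPoly =
        red p (PK.annular (freeWord (p ^ k) v' a) dir').fPoly) :
    (PK.linking (fst hl hpos dir) ⟨0, hl⟩) ^ 2 = (PK.linking (fst hl' hpos dir') ⟨0, hl'⟩) ^ 2 ∧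
    ∀ n, RZ M (toW v) (PK.annular v (fst hl hpos dir)).writhe n =
      RZ M' (toW v') (PK.annular v' (fst hl' hpos dir')).writhe n := by
  obtain ⟨hs, hR⟩ := pair_RR p k hp5 hk hl hM v hl' hM' v' a dir ho hK dir' ho' hK' hpos N hN hq hf
  refine ⟨hs, fun n => ?_⟩
  rw [← sub_eq_zero]
  have h2 : Bd (RZ M (toW v) (PK.annular v (fst hl hpos dir)).writhe n -
      RZ M' (toW v') (PK.annular v' (fst hl' hpos dir')).writhe n)
      (2 ^ (M + 2 * l) + 2 ^ (M' + 2 * l')) := by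
    rw [sub_eq_add_neg]
    have h3 := (RZ_bd (toW_mem v) (PK.annular v (fst hl hpos dir)).writhe n).add
      (RZ_bd (toW_mem v') (PK.annular v' (fst hl' hpos dir')).writhe n).neg
    rw [toW_length, toW_length] at h3
    exact h3
  refine eq_zero_of_red h2 hbig ?_
  rw [map_sub, red_RZ, red_RZ, hR n, sub_self]

/-- the quotients have equal polynomials -/
theorem quot_exact (p : ℕ) [hp : Fact p.Prime] (hp2 : p ≠ 2) (k : ℕ) (hl : 0 < l) (hM : 0 < M)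
    (v : Fin l → Elem M)
    (hl' : 0 < l') (hM' : 0 < M') (v' : Fin l' → Elem M') (a : ℤ)
    (dir : Fin (p ^ k * l + a.natAbs * (M * (M - 1))) × Fin M → Bool)
    (ho : Oriented (freeWord (p ^ k) v a) dir) (hK : IsKnot (PK.annular (freeWord (p ^ k) v a) dir))
    (dir' : Fin (p ^ k * l' + a.natAbs * (M' * (M' - 1))) × Fin M' → Bool)
    (ho' : Oriented (freeWord (p ^ k) v' a) dir')
    (hK' : IsKnot (PK.annular (freeWord (p ^ k) v' a) dir')) (hpos : 0 < p ^ k)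
    (hs : (PK.linking (fst hl hpos dir) ⟨0, hl⟩) ^ 2 = (PK.linking (fst hl' hpos dir') ⟨0, hl'⟩) ^ 2)
    (hZ : ∀ n, RZ M (toW v) (PK.annular v (fst hl hpos dir)).writhe n =
      RZ M' (toW v') (PK.annular v' (fst hl' hpos dir')).writhe n)
    (b : ℤ) (d : Fin (1 * l + b.natAbs * (M * (M - 1))) × Fin M → Bool)
    (d' : Fin (1 * l' + b.natAbs * (M' * (M' - 1))) × Fin M' → Bool)
    (hd : Oriented (freeWord 1 v b) d) (hd' : Oriented (freeWord 1 v' b) d') :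
    (PK.annular (freeWord 1 v b) d).fPoly = (PK.annular (freeWord 1 v' b) d').fPoly := by
  have hodd : Odd (p ^ k) := (hp.out.odd_of_ne_two hp2).pow
  rw [← sub_eq_zero]
  apply eq_zero_of_all
  intro p' hp'
  have : Fact p'.Prime := ⟨hp'⟩
  obtain ⟨hv, hw⟩ := knot_writhe hl hM (p ^ k) hodd v a dir ho hK
  obtain ⟨c, hc⟩ := linking_par (fst hl hpos dir) ⟨0, hl⟩
  obtain ⟨c', hc'⟩ := linking_par (fst hl' hpos dir') ⟨0, hl'⟩
  have hMN : M ≤ max M M' := le_max_left _ _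
  have hMN' : M' ≤ max M M' := le_max_right _ _
  have hqw := quot_writhe hl hM (p ^ k) hodd v a dir ho hK b d hd
  have hqw' := quot_writhe hl' hM' (p ^ k) hodd v' a dir' ho' hK' b d' hd'
  have hst := star p' 0 1 (pow_zero p').symm odd_one hl hM v b d _ _ c hc (by
    rw [hqw]; push_cast; ring)
  have hst' := star p' 0 1 (pow_zero p').symm odd_one hl' hM' v' b d' _ _ c' hc' (by
    rw [hqw']; push_cast; ring)
  rw [map_mul, red_dl, sum_ext p' hMN (toW_mem v) _ _ one_ne_zero (hn p' b)] at hst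
  rw [map_mul, red_dl, sum_ext p' hMN' (toW_mem v') _ _ one_ne_zero (hn p' b), ← hs] at hst'
  have h5 : dF (ZMod p') * red p' (PK.annular (freeWord 1 v b) d).fPoly =
      dF (ZMod p') * red p' (PK.annular (freeWord 1 v' b) d').fPoly := by
    rw [hst, hst']
    congr 1
    refine Finset.sum_congr rfl fun n _ => ?_
    rw [← red_RZ, ← red_RZ, hZ n]
  rw [map_sub, mul_left_cancel₀ (dF_ne (ZMod p')) h5, sub_self]

end Pool.Agent.L5helper92.PR
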